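import Pool.Agent.H66.GEO.WD2
import Pool.Agent.H66.GEO.WN

/-!
# GEO, module EX4: the monodromy of the collar of a window (think 1848, section 5, case a = -1)

`φ` univalent and bounded on the disc, `0` is a value, `G` lifts `φ (exp t)` on the strip `log (1 - d) < re t < 0`, the translation by `1` is a loop, `im G` is bounded.
Then `G (t + 2 π i) = G t + p / q` with `p ≠ 0`, and there is a smooth path in the image of `G` with `π (y + 1) = π y + p`.
PROOF. `sh_lo`: `G (t + 2 π i) = a G t + b`, and `(a, b)` is a loop (`loop`). `|a| ≠ 1`: `lo_scal`. `a = -1` or `(a, b) = (1, 0)`: `G` has period `4 π i`, against `typ`. `a = 1`: `im b = 0`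
because `im (G t + n b)` is bounded, and `lo_gen`: `1 = m e`, `b = n e`.
-/

set_option autoImplicit false

open Filter Topology Metric Set

namespace Pool.Agent.H66.GEO

variable {Q : Set ℂ} {Lf : Set ℂ → (ℂ → ℂ) → (ℂ → ℂ) → Prop}

private theorem e4_mem {a b : ℝ} {t : ℂ} (ht : t ∈ St a b) (z : ℂ) (hz : z.re = 0) : t + z ∈ St a b := by
  unfold St at ht ⊢
  simp only [mem_setOf_eq, Complex.add_re, hz, add_zero] at ht ⊢
  exact ht

private theorem e4_re (y : ℝ) : (2 * Real.pi * Complex.I * y : ℂ).re = 0 := by simp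

private theorem e4_re1 : (2 * Real.pi * Complex.I : ℂ).re = 0 := by simp

/-- the shift by `2 π i` is a loop -/
theorem sh_lo (h : LS Q Lf) {a b : ℝ} {H G : ℂ → ℂ} (hL : Lf (St a b) H G) (hab : a < b)
    (hH : ∀ t ∈ St a b, H (t + 2 * Real.pi * Complex.I) = H t) :
    ∃ g ∈ LO Lf (St a b) H G, ∀ t ∈ St a b, G (t + 2 * Real.pi * Complex.I) = ac g (G t) := by
  have hop := h.op hL
  have hdG := h.dG hL
  have hsh : Lf (St a b) H (fun t => G (t + 2 * Real.pi * Complex.I)) := by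
    refine h.sub hL (St a b) (fun t => t + 2 * Real.pi * Complex.I) H _ hop.1 hop.2
      ((differentiable_id.add_const _).differentiableOn) fun u hu => ⟨e4_mem hu _ e4_re1, ?_, ?_, rfl⟩
    · have : deriv (fun t : ℂ => t + 2 * Real.pi * Complex.I) u = 1 := by
        simp
      rw [this]
      exact one_ne_zero
    · exact (hH u hu).symm
  obtain ⟨α, β, hα, hαβ⟩ := h.gal hL hsh
  obtain ⟨u, hu⟩ : ∃ u : ℂ, u ∈ St a b := ⟨((a + b) / 2 : ℝ), by
    unfold St
    rw [mem_setOf_eq, Complex.ofReal_re]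
    constructor <;> linarith⟩
  obtain ⟨g, hg, -, ε, hε, hge⟩ := loop h hL hu (e4_mem hu _ e4_re1) (hH u hu).symm
  have hgid : g = (α, β) := by
    refine aff_id hop.1 hdG.1 hu (hdG.2 u hu) ?_
    filter_upwards [hop.1.mem_nhds hu, Metric.ball_mem_nhds u hε] with v hv hv'
    rw [mem_ball, dist_eq_norm] at hv'
    rw [← hge v hv (v + 2 * Real.pi * Complex.I) (e4_mem hv _ e4_re1) hv' (by
      rw [show v + 2 * Real.pi * Complex.I - (u + 2 * Real.pi * Complex.I) = v - u by ring]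
      exact hv') (hH v hv).symm]
    exact hαβ v hv
  refine ⟨g, hg, fun t ht => ?_⟩
  rw [hgid]
  exact hαβ t ht

/-- the monodromy of the collar of a window, if the period `4 π i` is excluded -/
theorem ex4g (h : LS Q Lf) {φ G : ℂ → ℂ} {d C : ℝ} (hd0 : 0 < d) (hd1 : d < 1)
    (hL : Lf (St (Real.log (1 - d)) 0) (fun t => φ (Complex.exp t)) G)
    (htyp : ¬∀ t ∈ St (Real.log (1 - d)) 0, G (t + 4 * Real.pi * Complex.I) = G t)
    (h1 : ((1, 1) : ℝ × ℂ) ∈ LO Lf (St (Real.log (1 - d)) 0) (fun t => φ (Complex.exp t)) G)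
    (hC : ∀ t ∈ St (Real.log (1 - d)) 0, |(G t).im| ≤ C) :
    ∃ (p : ℤ) (q : ℕ), p ≠ 0 ∧ 0 < q ∧ (∀ t ∈ St (Real.log (1 - d)) 0, G (t + 2 * Real.pi * Complex.I) = G t + p / q) ∧
      (∀ t ∈ St (Real.log (1 - d)) 0, G (t + 2 * Real.pi * Complex.I * q) = G t + p) ∧
      ∃ γ : ℝ → ℂ, ContDiff ℝ 1 γ ∧ (∀ y, γ (y + 1) = γ y + p) ∧ ∀ y, ∃ t ∈ St (Real.log (1 - d)) 0, γ y = G t := by
  have hlog : Real.log (1 - d) < 0 := Real.log_neg (by linarith) (by linarith)
  obtain ⟨g, hg, hgs⟩ := sh_lo h hL hlog fun t _ => by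
    rw [Complex.exp_add, Complex.exp_two_pi_mul_I, mul_one]
  have hmem : ∀ t ∈ St (Real.log (1 - d)) 0, t + 2 * Real.pi * Complex.I ∈ St (Real.log (1 - d)) 0 :=
    fun t ht => e4_mem ht _ e4_re1
  have hne : (St (Real.log (1 - d)) 0).Nonempty := ⟨((Real.log (1 - d)) / 2 : ℝ), by
    unfold St
    rw [mem_setOf_eq, Complex.ofReal_re]
    constructor <;> linarith⟩
  have h4s : ∀ t ∈ St (Real.log (1 - d)) 0, G (t + 4 * Real.pi * Complex.I) = ac g (ac g (G t)) := by
    intro t ht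
    rw [← hgs t ht, ← hgs _ (hmem t ht)]
    congr 1
    ring
  -- the modulus
  have ha1 : |g.1| = 1 := by
    by_contra hne1
    exact one_ne_zero (lo_scal h hL hne hg hne1 h1)
  have ha : g.1 = 1 := by
    rcases (abs_eq (zero_le_one' ℝ)).1 ha1 with h2 | h2
    · exact h2
    · exfalso
      refine htyp fun t ht => ?_
      rw [h4s t ht]
      unfold ac
      rw [h2]
      push_cast
      ring
  have hgt : ∀ t ∈ St (Real.log (1 - d)) 0, G (t + 2 * Real.pi * Complex.I) = G t + g.2 := by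
    intro t ht
    rw [hgs t ht]
    unfold ac
    rw [ha, Complex.ofReal_one, one_mul]
  have hb : g.2 ≠ 0 := by
    intro h2
    refine htyp fun t ht => ?_
    rw [h4s t ht]
    unfold ac
    rw [ha, h2, Complex.ofReal_one, one_mul, add_zero, one_mul, add_zero]
  have hgn : ∀ n : ℕ, ∀ t ∈ St (Real.log (1 - d)) 0, G (t + 2 * Real.pi * Complex.I * n) = G t + n * g.2 := by
    intro n
    induction n with
    | zero =>
      intro t _
      simp
    | succ n ih =>
      intro t ht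
      have h2 := hgt _ (e4_mem ht (2 * Real.pi * Complex.I * n) (by simp))
      rw [ih t ht] at h2
      rw [show (2 * Real.pi * Complex.I * ((n + 1 : ℕ) : ℂ) : ℂ) =
        2 * Real.pi * Complex.I * n + 2 * Real.pi * Complex.I by push_cast; ring, ← add_assoc, h2]
      push_cast
      ring
  -- the imaginary part
  have him : g.2.im = 0 := by
    by_contra h2
    obtain ⟨t, ht⟩ := hne
    obtain ⟨n, hn⟩ := exists_nat_gt ((C + C) / |g.2.im|)
    have h3 : 0 < |g.2.im| := abs_pos.2 h2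
    rw [div_lt_iff₀ h3] at hn
    have h4 := hC _ (e4_mem ht (2 * Real.pi * Complex.I * n) (by simp))
    rw [hgn n t ht] at h4
    have h5 : (G t + n * g.2).im = (G t).im + n * g.2.im := by
      rw [Complex.add_im, Complex.mul_im, Complex.natCast_re, Complex.natCast_im]
      ring
    rw [h5] at h4
    have h6 := hC t ht
    have h7 : |(n : ℝ) * g.2.im| ≤ C + C := by
      have h8 : (n : ℝ) * g.2.im = ((G t).im + n * g.2.im) - (G t).im := by ring
      rw [h8]
      exact (abs_sub _ _).trans (add_le_add h4 h6)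
    rw [abs_mul, Nat.abs_cast] at h7
    linarith
  obtain ⟨ρ, hρ⟩ : ∃ ρ : ℝ, g.2 = ρ := ⟨g.2.re, by
    refine Complex.ext ?_ ?_
    · rw [Complex.ofReal_re]
    · rw [Complex.ofReal_im, him]⟩
  have hgL : ((1, (ρ : ℂ) * 1) : ℝ × ℂ) ∈ LO Lf (St (Real.log (1 - d)) 0) (fun t => φ (Complex.exp t)) G := by
    rw [mul_one, ← hρ]
    have h2 : g = (1, g.2) := Prod.ext ha rfl
    rw [← h2]
    exact hg
  obtain ⟨e, m, n, he, -, hm, hn⟩ := lo_gen h hL hne one_ne_zero h1 hgL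
  have hm0 : m ≠ 0 := by
    rintro rfl
    rw [Int.cast_zero, zero_mul] at hm
    exact one_ne_zero hm
  have hn0 : n ≠ 0 := by
    rintro rfl
    rw [Int.cast_zero, zero_mul, mul_one] at hn
    exact hb (hρ.trans hn)
  have hmn : (m : ℂ) * g.2 = n := by
    rw [mul_one] at hn
    rw [hρ, hn]
    calc (m : ℂ) * (n * e) = n * (m * e) := by ring
      _ = n := by rw [← hm, mul_one]
  obtain ⟨p, q, hp0, hq0, hpq⟩ : ∃ (p : ℤ) (q : ℕ), p ≠ 0 ∧ 0 < q ∧ (q : ℂ) * g.2 = p := by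
    rcases lt_or_gt_of_ne hm0 with hlt | hgt
    · refine ⟨-n, (-m).toNat, neg_ne_zero.2 hn0, by omega, ?_⟩
      have h2 : (((-m).toNat : ℤ)) = -m := Int.toNat_of_nonneg (by omega)
      have h3 : (((-m).toNat : ℕ) : ℂ) = -(m : ℂ) := by
        have h4 : ((((-m).toNat : ℤ)) : ℂ) = ((-m : ℤ) : ℂ) := by rw [h2]
        push_cast at h4
        exact h4
      rw [h3, neg_mul, hmn]
      push_cast
      ring
    · refine ⟨n, m.toNat, hn0, by omega, ?_⟩
      have h2 : ((m.toNat : ℤ)) = m := Int.toNat_of_nonneg (by omega)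
      have h3 : ((m.toNat : ℕ) : ℂ) = (m : ℂ) := by
        have h4 : (((m.toNat : ℤ)) : ℂ) = ((m : ℤ) : ℂ) := by rw [h2]
        push_cast at h4
        exact h4
      rw [h3, hmn]
  have hq1 : (q : ℂ) ≠ 0 := Nat.cast_ne_zero.2 hq0.ne'
  refine ⟨p, q, hp0, hq0, fun t ht => ?_, fun t ht => ?_, ?_⟩
  · rw [hgt t ht, ← hpq]
    congr 1
    field_simp
  · rw [hgn q t ht, hpq]
  · obtain ⟨c, hc⟩ : ∃ c : ℝ, c = Real.log (1 - d) / 2 := ⟨_, rfl⟩
    have hc1 : Real.log (1 - d) < c := by linarith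
    have hc2 : c < 0 := by linarith
    have hcm : ∀ y : ℝ, (c : ℂ) + 2 * Real.pi * Complex.I * y ∈ St (Real.log (1 - d)) 0 := fun y =>
      e4_mem (by
        unfold St
        rw [mem_setOf_eq, Complex.ofReal_re]
        exact ⟨hc1, hc2⟩) _ (e4_re y)
    have hsm := line_smooth hc1 hc2 (h.dG hL).1
    refine ⟨fun y => G (c + 2 * Real.pi * Complex.I * ((q * y : ℝ) : ℂ)), ?_, fun y => ?_, fun y => ⟨_, hcm _, rfl⟩⟩
    · exact hsm.comp (contDiff_const.mul contDiff_id)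
    · have h2 := hgn q _ (hcm (q * y))
      rw [hpq] at h2
      show G (c + 2 * Real.pi * Complex.I * ((q * (y + 1) : ℝ) : ℂ)) = G (c + 2 * Real.pi * Complex.I * ((q * y : ℝ) : ℂ)) + p
      rw [← h2]
      congr 1
      push_cast
      ring

/-- the monodromy of the collar of a window which contains `0` -/
theorem ex4 (h : LS Q Lf) {φ G : ℂ → ℂ} {d C : ℝ} (hd0 : 0 < d) (hd1 : d < 1) (dφ : DifferentiableOn ℂ φ (ball 0 1))
    (iφ : InjOn φ (ball 0 1)) (bφ : Bornology.IsBounded (φ '' ball 0 1)) (h0 : (0 : ℂ) ∈ φ '' ball 0 1)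
    (hL : Lf (St (Real.log (1 - d)) 0) (fun t => φ (Complex.exp t)) G)
    (h1 : ((1, 1) : ℝ × ℂ) ∈ LO Lf (St (Real.log (1 - d)) 0) (fun t => φ (Complex.exp t)) G)
    (hC : ∀ t ∈ St (Real.log (1 - d)) 0, |(G t).im| ≤ C) :
    ∃ (p : ℤ) (q : ℕ), p ≠ 0 ∧ 0 < q ∧ (∀ t ∈ St (Real.log (1 - d)) 0, G (t + 2 * Real.pi * Complex.I) = G t + p / q) ∧
      (∀ t ∈ St (Real.log (1 - d)) 0, G (t + 2 * Real.pi * Complex.I * q) = G t + p) ∧
      ∃ γ : ℝ → ℂ, ContDiff ℝ 1 γ ∧ (∀ y, γ (y + 1) = γ y + p) ∧ ∀ y, ∃ t ∈ St (Real.log (1 - d)) 0, γ y = G t :=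
  ex4g h hd0 hd1 hL (h.typ φ G d hd0 hd1 dφ iφ bφ h0 hL) h1 hC

end Pool.Agent.H66.GEO
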