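import Pool.Agent.H66.GEO.On
import Pool.Agent.H24.GEO.Ex4

/-!
# GEO*, module EX4 (b): the monodromy of the collar of a window which contains a marked point (think 1848, 1880)

`ex4m`: as `ex4b` of H66/GEO/EX4, with the property of a marked point (`G'` does not have the period `4 π i`) as hypothesis.
-/

set_option autoImplicit false

open Filter Topology Metric Set

namespace Pool.Agent.H66.GEO

variable {Q : Set ℂ} {Lf : Set ℂ → (ℂ → ℂ) → (ℂ → ℂ) → Prop} {κ l : ℝ} {ψ K : ℂ → ℂ} {Y : Set ℂ} {g : ℂ} {ρ : ℝ} {I : ℂ → ℂ}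

theorem ex4m (h : ON Q Lf κ l ψ K Y g ρ I) {φW : ℂ → ℂ} {d : ℝ} (d0 : 0 < d) (d1 : d < 1) {G' : ℂ → ℂ}
    (hG : Lf (St (Real.log (1 - d)) 0) (fun t => φW (Complex.exp t)) G')
    (hM : ¬∀ t ∈ St (Real.log (1 - d)) 0, G' (t + 4 * Real.pi * Complex.I) = G' t)
    (hL : LO Lf (St (Real.log (1 - d)) 0) (fun t => φW (Complex.exp t)) G' = LO Lf (St κ 0) ψ K) {c : ℂ}
    (hn : ∀ u ∈ St (Real.log (1 - d)) 0, nu K l (G' u) = 1 ∧ nu K l (c - G' u) = 1) :
    ∃ m p : ℤ, p ≠ 0 ∧ ∀ u ∈ St (Real.log (1 - d)) 0, G' (u + 2 * Real.pi * Complex.I * m) = G' u + p := by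
  have hwk := on_wk h
  obtain ⟨t0, -, hlow⟩ := line_low hwk h.h1 h.h2
  have hnl : ∀ x : ℂ, nu K l x = 1 → (K t0).im ≤ x.im := by
    intro x hx
    by_contra hlt
    push Not at hlt
    have h3 := nu_low hwk h.h1 h.h2 (x := x) fun t ht => hlt.trans_le (hlow t ht)
    rw [h3] at hx
    exact zero_ne_one hx
  obtain ⟨p, q, hp, -, -, hq, -⟩ := ex4g h.ls (C := |(K t0).im| + |c.im - (K t0).im|) d0 d1 hG hM
    (by rw [hL]; exact on_one h) fun u hu => by
      have h3 := hnl _ (hn u hu).1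
      have h4 := hnl _ (hn u hu).2
      rw [Complex.sub_im] at h4
      rw [abs_le]
      have h5 := neg_abs_le (K t0).im
      have h6 := le_abs_self (c.im - (K t0).im)
      have h7 := abs_nonneg (K t0).im
      have h8 := abs_nonneg (c.im - (K t0).im)
      constructor <;> linarith
  exact ⟨q, p, hp, fun u hu => by exact_mod_cast hq u hu⟩

end Pool.Agent.H66.GEO
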